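import Pool.Agent.Lib.helper33.TorusKempe

/-!
A toroidal graph that is even 4-colourable and has two 5-colourings that are not Kempe equivalent.
-/

namespace Pool.Agent.Results.MP_9c2e29_co.FourColourable

/-- The graph has a drawing without crossings on the torus `(ℝ/ℤ)²`. -/
def Toroidal {V : Type} (G : SimpleGraph V) : Prop :=
  ∃ (p : V → AddCircle (1:ℝ) × AddCircle (1:ℝ))
    (γ : V → V → C(unitInterval, AddCircle (1:ℝ) × AddCircle (1:ℝ))),
    Function.Injective p ∧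
    (∀ u v, G.Adj u v → γ u v 0 = p u ∧ γ u v 1 = p v ∧ Function.Injective (γ u v)) ∧
    (∀ (u v w : V) (t : unitInterval), G.Adj u v → 0 < (t:ℝ) → (t:ℝ) < 1 → γ u v t ≠ p w) ∧
    (∀ (u v u' v' : V) (s t : unitInterval), G.Adj u v → G.Adj u' v' →
      ¬ ((u = u' ∧ v = v') ∨ (u = v' ∧ v = u')) →
      0 < (s:ℝ) → (s:ℝ) < 1 → 0 < (t:ℝ) → (t:ℝ) < 1 → γ u v s ≠ γ u' v' t)

/-- `c'` arises from `c` by swapping two colours on one two-coloured component. -/
def KempeStep {V : Type} (G : SimpleGraph V) (c c' : V → Fin 5) : Prop :=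
  ∃ (a b : Fin 5) (x : V), ∀ v : V,
    ((SimpleGraph.fromRel (fun y z => G.Adj y z ∧ (c y = a ∨ c y = b) ∧
        (c z = a ∨ c z = b))).Reachable x v → c' v = Equiv.swap a b (c v)) ∧
    (¬ (SimpleGraph.fromRel (fun y z => G.Adj y z ∧ (c y = a ∨ c y = b) ∧
        (c z = a ∨ c z = b))).Reachable x v → c' v = c v)

theorem result : ∃ G : SimpleGraph (Fin 10), Toroidal G ∧ G.Colorable 4 ∧
    ∃ c₁ c₂ : G.Coloring (Fin 5), ¬ Relation.ReflTransGen (KempeStep G) (⇑c₁) (⇑c₂) :=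
  ⟨Pool.Agent.Lib.helper33.TorusKempe.G, Pool.Agent.Lib.helper33.TorusKempe.embeds,
    ⟨Pool.Agent.Lib.helper33.TorusKempe.col4⟩, _, _,
    Pool.Agent.Lib.helper33.TorusKempe.not_equiv⟩

end Pool.Agent.Results.MP_9c2e29_co.FourColourable
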